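import Pool.Agent.Helper53.CTG.Goals

/-!
# PROJECT CTG, packet FC1: one big step of the machine (adapted from `Helper98/CTR/FC1.lean`)
-/

namespace Pool.Agent.Helper94.CTG

open Pool.Agent.Helper1.TE (cif codeB word NumMach)
open Pool.Agent.Helper65.LinSpace (dig tab nrec ifz eq01 le01 lt01 capPow)
open Pool.Agent.Helper53.CTG

/-- The next state in mode 6. -/
theorem nx_main (ok : ℕ → ℕ → ℕ → ℕ → ℕ) (tst : ℕ → ℕ) (mal : ℕ) (w : List Bool)
    (N q b c u W τ g t γ : ℕ) (D : De) (X S A : ℕ)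
    (hγ : γ * (1 - gqM (mainS N q b c u W τ g t D X S A)) = 0) :
    (machM ok tst mal).nx w (mainS N q b c u W τ g t D X S A) γ =
    cif (Nt N q - u)
      (cif (Nt N q + 3 * b - u)
        (cif (Nt N q + 4 * b - u)
          (cif (bigT tst b c W D g t X A) rejS
            (cif ((τ + 1) / 13 ^ Nt N q)
              (mainS N q b c 0 W (τ + 1) 0 0 (root N q)
                (bigX N q b c W D g t X S A)
                (bigS N q b c W D t X S A)
                (bigA c W D t A))
              accS))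
          (mainS N q b c (u + 1) W τ g
            (2 * t + (codeB w[N + q + b + c + 4 + blkM b c W D A g * b +
              (u - (Nt N q + 3 * b))]? - 1)) D X S A))
        (mainS N q b c (u + 1) W τ (2 * g + γ) t D X S A))
      (mainS N q b c (u + 1) W τ g t
        (sub q D (Nt N q - 1 - u) (dig 13 τ (Nt N q - 1 - u))) X S A) := by
  change nextM ok tst mal (mainS N q b c u W τ g t D X S A)
    (codeB w[addrM (mainS N q b c u W τ g t D X S A)]?) γ = _
  unfold nextM
  rw [hγ]
  rfl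

theorem gq_guess {N q b c u W τ g t : ℕ} {D : De} {X S A : ℕ} (h1 : Nt N q ≤ u)
    (h2 : u < Nt N q + 3 * b) : gqM (mainS N q b c u W τ g t D X S A) = 1 := by
  change eq01 6 6 * le01 (Nt N q) u * lt01 u (Nt N q + 3 * b) = 1
  unfold eq01 le01 lt01
  rw [if_pos rfl, if_pos h1, if_pos h2]

theorem step_dec (ok : ℕ → ℕ → ℕ → ℕ → ℕ) (tst : ℕ → ℕ) (mal : ℕ) (w : List Bool)
    {N q b c u W τ g t : ℕ} {D : De} {X S A : ℕ} (hu : u < Nt N q) :
    (machM ok tst mal).nx w (mainS N q b c u W τ g t D X S A) 0 =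
      mainS N q b c (u + 1) W τ g t
        (sub q D (Nt N q - 1 - u) (dig 13 τ (Nt N q - 1 - u))) X S A := by
  rw [nx_main ok tst mal w N q b c u W τ g t 0 D X S A (Nat.zero_mul _)]
  have : Nt N q - u ≠ 0 := by omega
  unfold cif
  rw [if_neg this]

theorem step_guess (ok : ℕ → ℕ → ℕ → ℕ → ℕ) (tst : ℕ → ℕ) (mal : ℕ) (w : List Bool)
    {N q b c u W τ g t γ : ℕ} {D : De} {X S A : ℕ} (h1 : Nt N q ≤ u)
    (h2 : u < Nt N q + 3 * b) :
    (machM ok tst mal).nx w (mainS N q b c u W τ g t D X S A) γ =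
      mainS N q b c (u + 1) W τ (2 * g + γ) t D X S A := by
  rw [nx_main ok tst mal w N q b c u W τ g t γ D X S A (by rw [gq_guess h1 h2, Nat.sub_self, Nat.mul_zero])]
  have e1 : Nt N q - u = 0 := by omega
  have e2 : Nt N q + 3 * b - u ≠ 0 := by omega
  unfold cif
  rw [if_pos e1, if_neg e2]

theorem step_read (ok : ℕ → ℕ → ℕ → ℕ → ℕ) (tst : ℕ → ℕ) (mal : ℕ) (w : List Bool)
    {N q b c u W τ g t : ℕ} {D : De} {X S A : ℕ} (h1 : Nt N q + 3 * b ≤ u)
    (h2 : u < Nt N q + 4 * b) :
    (machM ok tst mal).nx w (mainS N q b c u W τ g t D X S A) 0 =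
      mainS N q b c (u + 1) W τ g
            (2 * t + (codeB w[N + q + b + c + 4 + blkM b c W D A g * b +
              (u - (Nt N q + 3 * b))]? - 1)) D X S A := by
  rw [nx_main ok tst mal w N q b c u W τ g t 0 D X S A (Nat.zero_mul _)]
  have e1 : Nt N q - u = 0 := by omega
  have e2 : Nt N q + 3 * b - u = 0 := by omega
  have e3 : Nt N q + 4 * b - u ≠ 0 := by omega
  unfold cif
  rw [if_pos e1, if_pos e2, if_neg e3]

theorem step_last (ok : ℕ → ℕ → ℕ → ℕ → ℕ) (tst : ℕ → ℕ) (mal : ℕ) (w : List Bool)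
    {N q b c W τ g t : ℕ} {D : De} {X S A : ℕ} (hT : bigT tst b c W D g t X A ≠ 0)
    (hτ : τ < 13 ^ Nt N q) :
    (machM ok tst mal).nx w (mainS N q b c (Nt N q + 4 * b) W τ g t D X S A) 0 =
      if τ + 1 < 13 ^ Nt N q then
        mainS N q b c 0 W (τ + 1) 0 0 (root N q)
                (bigX N q b c W D g t X S A)
                (bigS N q b c W D t X S A)
                (bigA c W D t A)
      else accS := by
  rw [nx_main ok tst mal w N q b c _ W τ g t 0 D X S A (Nat.zero_mul _)]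
  have e1 : Nt N q - (Nt N q + 4 * b) = 0 := by omega
  have e2 : Nt N q + 3 * b - (Nt N q + 4 * b) = 0 := by omega
  have e3 : Nt N q + 4 * b - (Nt N q + 4 * b) = 0 := by omega
  unfold cif
  rw [if_pos e1, if_pos e2, if_pos e3, if_neg hT]
  by_cases h3 : τ + 1 < 13 ^ Nt N q
  · rw [if_pos h3, if_pos (Nat.div_eq_of_lt h3)]
  · have h4 : τ + 1 = 13 ^ Nt N q := by omega
    rw [if_neg h3, h4, Nat.div_self (by positivity), if_neg one_ne_zero]

theorem code_sub (w : List Bool) (k : ℕ) : codeB w[k]? - 1 = (w.getD k false).toNat := by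
  rw [List.getD_eq_getElem?_getD]
  cases w[k]? with
  | none => rfl
  | some a => cases a <;> rfl

theorem word_step (w : List Bool) (k i t : ℕ) :
    word (w.drop k) i (t + 1) = 2 * word (w.drop k) i t + (codeB w[k + i + t]? - 1) := by
  rw [code_sub]
  change 2 * word (w.drop k) i t + ((w.drop k).getD (i + t) false).toNat = _
  rw [List.getD_eq_getElem?_getD, List.getD_eq_getElem?_getD, List.getElem?_drop, add_assoc]

/-- The phase which computes the descriptor. -/
theorem phase_dec (ok : ℕ → ℕ → ℕ → ℕ → ℕ) (tst : ℕ → ℕ) (mal : ℕ) (w : List Bool)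
    {N q b c W τ : ℕ} {X S A : ℕ}
    (hR : (machM ok tst mal).Reach w (mainS N q b c 0 W τ 0 0 (root N q) X S A)) :
    ∀ u ≤ Nt N q, (machM ok tst mal).Reach w
      (mainS N q b c u W τ 0 0 (dec q (root N q) (Nt N q) τ u) X S A) := by
  intro u
  induction u with
  | zero =>
    intro _
    exact hR
  | succ u ih =>
    intro hu
    refine (ih (by omega)).tail ⟨0, by norm_num, ?_⟩
    rw [step_dec ok tst mal w (by omega)]
    rfl

/-- The guessing phase. -/
theorem phase_guess (ok : ℕ → ℕ → ℕ → ℕ → ℕ) (tst : ℕ → ℕ) (mal : ℕ) (w : List Bool)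
    {N q b c W τ : ℕ} {D : De} {X S A : ℕ} (G : ℕ) (hG : G < 2 ^ (3 * b))
    (hR : (machM ok tst mal).Reach w (mainS N q b c (Nt N q) W τ 0 0 D X S A)) :
    ∀ u ≤ 3 * b, (machM ok tst mal).Reach w
      (mainS N q b c (Nt N q + u) W τ (G / 2 ^ (3 * b - u)) 0 D X S A) := by
  intro u
  induction u with
  | zero =>
    intro _
    rw [Nat.sub_zero, Nat.div_eq_of_lt hG]
    exact hR
  | succ u ih =>
    intro hu
    have h1 := ih (by omega)
    refine h1.tail ⟨(G / 2 ^ (3 * b - (u + 1))) % 2, Nat.mod_lt _ (by norm_num), ?_⟩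
    rw [step_guess ok tst mal w (by omega) (by omega)]
    have e1 : 3 * b - u = (3 * b - (u + 1)) + 1 := by omega
    have e2 : G / 2 ^ (3 * b - u) = G / 2 ^ (3 * b - (u + 1)) / 2 := by
      rw [e1, pow_succ, Nat.div_div_eq_div_mul]
    rw [e2, Nat.div_add_mod]
    rfl

/-- The reading phase. -/
theorem phase_read (ok : ℕ → ℕ → ℕ → ℕ → ℕ) (tst : ℕ → ℕ) (mal : ℕ) (w : List Bool)
    {N q b c W τ g : ℕ} {D : De} {X S A : ℕ}
    (hR : (machM ok tst mal).Reach w (mainS N q b c (Nt N q + 3 * b) W τ g 0 D X S A)) :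
    ∀ t ≤ b, (machM ok tst mal).Reach w (mainS N q b c (Nt N q + 3 * b + t) W τ g
      (word (dat w N q b c) (blkM b c W D A g * b) t) D X S A) := by
  intro t
  induction t with
  | zero =>
    intro _
    exact hR
  | succ t ih =>
    intro ht
    have h1 := ih (by omega)
    refine h1.tail ⟨0, by norm_num, ?_⟩
    rw [step_read ok tst mal w (by omega) (by omega)]
    have e : Nt N q + 3 * b + t - (Nt N q + 3 * b) = t := by omega
    rw [e]
    unfold dat
    rw [word_step]
    rfl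

theorem gFC1 : GoalFC1 := by
  intro _ hST ok tst mal w N q b c τ g X S A s' hF hτ hg hX hS hC hR hop
  set W := 2 ^ Et N q b c with hW
  set D := dec q (root N q) (Nt N q) τ (Nt N q) with hD
  have hG2 : g < 2 ^ (3 * b) := by
    have : (2 : ℕ) ^ (3 * b) = 8 ^ b := by
      rw [pow_mul]
      norm_num
    rw [this]
    exact hg
  set t := word (dat w N q b c) (blkM b c W D A g * b) b with ht
  have hR0 := phase_dec ok tst mal w hR (Nt N q) le_rfl
  rw [← hD] at hR0
  have hR1 := phase_guess ok tst mal w g hG2 hR0 (3 * b) le_rfl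
  rw [Nat.sub_self, pow_zero, Nat.div_one] at hR1
  have hR2 := phase_read ok tst mal w hR1 b le_rfl
  rw [← ht] at hR2
  have e3 : Nt N q + 3 * b + b = Nt N q + 4 * b := by omega
  rw [e3] at hR2
  obtain ⟨s1, s2⟩ := hST ok tst w N q b c τ g X S A hF hτ hg hX hS hC D t hD ht
  have hbT : bigT tst b c W D g t X A ≠ 0 := by
    intro h0
    have := s1 h0
    rw [hop] at this
    exact absurd this (by simp)
  obtain ⟨s'', h1, _, h3⟩ := s2 hbT
  rw [hop] at h1
  have hs : s' = s'' := Option.some.inj h1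
  subst hs
  have hl := step_last ok tst mal w (τ := τ) (S := S) hbT hτ
  constructor
  · intro hτ1
    rw [if_neg (by omega)] at hl
    exact hR2.tail ⟨0, by norm_num, hl.symm⟩
  · intro hτ1
    rw [if_pos hτ1] at hl
    obtain ⟨k1, k2, k3⟩ := h3 hτ1
    exact ⟨_, _, _, k1, k2, k3, hR2.tail ⟨0, by norm_num, hl.symm⟩⟩

end Pool.Agent.Helper94.CTG
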