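import Pool.Agent.Helper53.CTG.Goals

/-! Packet CTG-WFD: well formed descriptors (adapted from `Helper15/CTR/WFD.lean`). -/

set_option autoImplicit false

namespace Pool.Agent.Helper94.CTG

open Pool.Agent.Helper53.CTG
open Pool.Agent.Helper1.TE (cif)

theorem cif_ind {α : Type} {P : α → Prop} {c : ℕ} {a b : α} (h1 : c = 0 → P a)
    (h2 : c ≠ 0 → P b) : P (cif c a b) := by
  unfold cif
  split_ifs with h
  · exact h1 h
  · exact h2 h

theorem wf_lit {q V k m e f v i T : ℕ} (hk : k ≤ 5) (hm : m ≤ 2) (he : e ≤ 3 * q + 3)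
    (hf : f + 1 ≤ 3 * q + 3) (hv : v < V) (hT : T ≤ 2)
    (hef : 3 ≤ k → 1 ≤ m → e ≠ f ∧ e ≠ f + 1) (h1 : k = 1 → T = 0)
    (hi : (k = 4 ∧ i = 3 * q + 4 ∧ T = 1) ∨ (k = 5 ∧ i = 3 * q + 4 ∧ T = 2) ∨
      (k ≤ 3 ∧ i ≤ 3 * q + 3)) : WF q V (k, m, e, f, v, i, T) :=
  ⟨hk, hm, he, hf, hv, hT, hef, h1, hi⟩

theorem wf_idle {q V : ℕ} (hV : 0 < V) : WF q V idle := by
  unfold idle
  apply wf_lit <;> omega

theorem wf_nod {q V v i T : ℕ} (hv : v < V) (hi : i ≤ 3 * q + 3) (hT : T ≤ 2) :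
    WF q V (nod v i T) := by
  unfold nod
  apply wf_lit <;> omega

theorem wf_phV {q V e v i T d : ℕ} (he : e ≤ 3 * q + 3) (hv : v < V) (hi : i ≤ 3 * q + 3)
    (hT : T ≤ 2) : WF q (2 * V) (phV e v i T d) := by
  unfold phV
  refine cif_ind (fun _ => ?_) (fun _ => cif_ind (fun _ => ?_) (fun _ =>
    cif_ind (fun _ => ?_) (fun _ => ?_)))
  · apply wf_lit <;> omega
  · apply wf_nod <;> omega
  · apply wf_lit <;> omega
  · apply wf_idle; omega

theorem wf_ph {q V k₁ k₂ e f j v i T d : ℕ} (he : e < f) (hf : f + 1 ≤ 3 * q + 3) (hv : v < V)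
    (hi : i ≤ 3 * q + 3) (hT : T ≤ 2)
    (hk : (k₁ = 4 ∧ k₂ = 5 ∧ j = 3 * q + 4) ∨ (k₁ = 3 ∧ k₂ = 3 ∧ j ≤ 3 * q + 3)) :
    WF q (2 * V) (ph k₁ k₂ e f j v i T d) := by
  unfold ph
  refine cif_ind (fun _ => ?_) (fun _ => cif_ind (fun _ => ?_) (fun _ =>
    cif_ind (fun _ => ?_) (fun _ => cif_ind (fun _ => ?_) (fun _ =>
    cif_ind (fun _ => ?_) (fun _ => cif_ind (fun _ => ?_) (fun _ =>
    cif_ind (fun _ => ?_) (fun _ => cif_ind (fun _ => ?_) (fun _ =>
    cif_ind (fun _ => ?_) (fun _ => cif_ind (fun _ => ?_) (fun _ =>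
    cif_ind (fun _ => ?_) (fun _ => cif_ind (fun _ => ?_) (fun _ => ?_))))))))))))
  · apply wf_lit <;> omega
  · apply wf_nod <;> omega
  · apply wf_lit <;> omega
  · apply wf_lit <;> omega
  · apply wf_nod <;> omega
  · apply wf_lit <;> omega
  · apply wf_lit <;> omega
  · apply wf_lit <;> omega
  · apply wf_nod <;> omega
  · apply wf_lit <;> omega
  · apply wf_lit <;> omega
  · apply wf_nod <;> omega
  · apply wf_lit <;> omega

theorem wf_mono {q V V' : ℕ} {x : De} (h : WF q V x) (hV : V ≤ V') : WF q V' x :=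
  ⟨h.hk, h.hm, h.he, h.hf, h.hv.trans_le hV, h.hT, h.hef, h.h1, h.hi⟩

theorem wf_sub (q V : ℕ) (x : De) (n d : ℕ) (hq : 1 ≤ q) (h : WF q V x) :
    WF q (2 * V) (sub q x n d) := by
  have hV : 0 < V := by
    have := h.hv
    omega
  unfold sub
  refine cif_ind (fun hk => ?_) (fun _ => cif_ind (fun _ => wf_mono h (by omega))
    (fun _ => wf_idle (by omega)))
  have hi : x.i ≤ 3 * q + 3 := by
    rcases h.hi with h1 | h1 | h1 <;> omega
  refine cif_ind (fun _ => cif_ind (fun _ => wf_phV (by omega) h.hv hi h.hT)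
    (fun h2 => cif_ind (fun _ => ?_) (fun h3 => ?_)))
    (fun _ => wf_phV ?_ h.hv hi h.hT)
  · unfold phB
    refine wf_ph ?_ ?_ h.hv hi h.hT (Or.inl ⟨rfl, rfl, rfl⟩)
    · omega
    · have := Nat.mod_lt (n / (q + 1)) (by norm_num : 0 < 2)
      omega
  · unfold phK
    refine wf_ph ?_ ?_ h.hv hi h.hT (Or.inr ⟨rfl, rfl, ?_⟩)
    · omega
    · omega
    · omega
  · omega

theorem gWFD : GoalWFD := by
  refine ⟨fun q V x n d hq h _ => wf_sub q V x n d hq h, ?_, ?_⟩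
  · intro q V x n τ t hq h
    induction t with
    | zero =>
      intro _
      rw [pow_zero, one_mul]
      exact h
    | succ t ih =>
      intro ht
      rw [pow_succ, mul_comm (2 ^ t) 2, mul_assoc]
      exact wf_sub q _ _ _ _ hq (ih (by omega))
  · intro N q _
    unfold root
    have := Nat.mod_lt (Hb N q) (by norm_num : 0 < 2)
    apply wf_lit <;> omega

end Pool.Agent.Helper94.CTG
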